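import Pool.Agent.Work.MP_02c6ed_co.Verif

/-!
Recognition of greedy posets is coNP-complete, already for posets of height two.
-/

set_option autoImplicit false

namespace Pool.Agent.Results.MP_02c6ed_co.CoNPComplete

open Pool.Agent.Work.MP_02c6ed_co

/-- The set of codes of greedy posets is in coNP, and every set of bit strings in coNP is
reducible to it by a function computable in polynomial time, all of whose values are codes of
posets without four-element chains. -/
theorem result :
    GreedyRecognition ∈ N68a2faeb.coNP ∧
      ∀ L ∈ N68a2faeb.coNP, ∃ f : List Bool → List Bool, N68a2faeb.IsPolyTime f ∧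
        ∀ x, (L x = true ↔ GreedyRecognition (f x) = true) ∧
          ∃ (n : ℕ) (P : PartialOrder (Fin n)), posetCode P = f x ∧
            ∀ i j k l : Fin n, P.lt i j → P.lt j k → ¬ P.lt k l :=
  ⟨mem_coNP, fun _ h => hard h⟩

end Pool.Agent.Results.MP_02c6ed_co.CoNPComplete
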