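import Pool.Agent.Work.MP_02c6ed_co.Verif
import Pool.Agent.GreedyJump.Tower
import Pool.Agent.GreedyJump.MatroidForm
import Pool.Agent.GreedyJump.Count

/-!
The determination of the greedy posets.
-/

set_option autoImplicit false

namespace Pool.Agent.Results.MP_02c6ed_co.Determination

open Pool.Agent.Work.MP_02c6ed_co GreedyJump

/-- The characterisation of all finite greedy posets by an exchange property of closed chains, its
form in height one in terms of matroids, and the two theorems which show that there is no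
essentially simpler one from height two on: recognition is coNP-complete, and the greedy posets
are not definable in infinitary logic with finitely many variables and counting quantifiers. -/
theorem result :
    (∀ (P : Type) [PartialOrder P] [Finite P], IsGreedy (Set.univ : Set P) ↔
      ∀ A C D : Set P, Tower A → ClosedOver A C → ClosedOver A D →
        (∃ z, (∀ x ∈ D, x < z) ∧ ∀ y, y < z → y ∈ A ∪ C ∪ D) →
          ∃ z, (∀ x ∈ C, x < z) ∧ ∀ y, y < z → y ∈ A ∪ C ∪ D) ∧
    (∀ (P : Type) [PartialOrder P] [Finite P], (∀ x y z : P, x < y → ¬ y < z) →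
      (IsGreedy (Set.univ : Set P) ↔
        ∃ M : Matroid P, M.E = {x | IsMin x} ∧
          (∀ C, M.IsCircuit C → ∃ y, C = Set.Iio y) ∧
          (∀ x y, x < y → ∃ C, M.IsCircuit C ∧ x ∈ C ∧ C ⊆ Set.Iio y))) ∧
    (GreedyRecognition ∈ N68a2faeb.coNP ∧
      ∀ L ∈ N68a2faeb.coNP, ∃ f : List Bool → List Bool, N68a2faeb.IsPolyTime f ∧
        ∀ x, (L x = true ↔ GreedyRecognition (f x) = true) ∧
          ∃ (n : ℕ) (P : PartialOrder (Fin n)), posetCode P = f x ∧
            ∀ i j k l : Fin n, P.lt i j → P.lt j k → ¬ P.lt k l) ∧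
    (∀ (k : ℕ) (φ : CountFormula k),
      ¬ ∀ (P : Type) [PartialOrder P] [Finite P], (∀ w x y z : P, w < x → x < y → ¬ y < z) →
        ((∀ v : Fin k → P, φ.Holds P v) ↔ IsGreedy (Set.univ : Set P))) :=
  ⟨fun _ _ _ => greedy_iff_tower, fun _ _ _ h => MatroidForm.heightOne_iff h,
    ⟨mem_coNP, fun _ h => hard h⟩, no_counting⟩

end Pool.Agent.Results.MP_02c6ed_co.Determination
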