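import Pool.Agent.Work.MP_02c6ed_co.Local

/-!
A local characterisation of the finite greedy posets.
-/

set_option autoImplicit false

namespace Pool.Agent.Results.MP_02c6ed_co.Interchange

open Pool.Agent.Work.MP_02c6ed_co

/-- A finite poset `P` is greedy if and only if, at every stage `Q` of the greedy procedure and
for all greedy chains `C` and `D` of `Q`: if `C \ D` is a greedy chain of `Q \ D`, then `D \ C` is
a greedy chain of `Q \ C`. -/
theorem result {P : Type*} [PartialOrder P] [Finite P] :
    IsGreedy (Set.univ : Set P) ↔
      ∀ Q : Set P, Stage Q → ∀ C D : Set P, IsGreedyChain Q C → IsGreedyChain Q D →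
        IsGreedyChain (Q \ D) (C \ D) → IsGreedyChain (Q \ C) (D \ C) :=
  greedy_iff_interch

end Pool.Agent.Results.MP_02c6ed_co.Interchange
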