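import Pool.Agent.GreedyJump.Count

/-!
Greedy posets are not definable in infinitary logic with finitely many variables and counting
quantifiers.
-/

set_option autoImplicit false

namespace Pool.Agent.Results.MP_02c6ed_co.NotDefinable

open Pool.Agent.Work.MP_02c6ed_co GreedyJump

/-- For no number `k` of variables is there a formula, built from `≤` and `=` by negation,
arbitrary conjunctions and counting quantifiers, that describes the greedy posets among the finite
posets without four-element chains. -/
theorem result (k : ℕ) (φ : CountFormula k) :
    ¬ ∀ (P : Type) [PartialOrder P] [Finite P], (∀ w x y z : P, w < x → x < y → ¬ y < z) →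
      ((∀ v : Fin k → P, φ.Holds P v) ↔ IsGreedy (Set.univ : Set P)) :=
  no_counting k φ

end Pool.Agent.Results.MP_02c6ed_co.NotDefinable
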